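import Pool.Agent.Q226.PS.Gen

set_option autoImplicit false

/-!
# Voevodsky's conjecture for the motives generated by simply connected surfaces
-/

open CategoryTheory CategoryTheory.Limits MonoidalCategory

universe v u

namespace Pool.Agent.Q226.PS

open Pool.Agent.Q226.SC (Geo Motives IsSummand PowerFibres)

variable {G : Geo} {𝓜 : Type u} [Category.{v} 𝓜] [MonoidalCategory 𝓜] [Preadditive 𝓜]
  {D : Data G 𝓜}

omit [MonoidalCategory 𝓜] [Preadditive 𝓜] in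
theorem sim_id {A B : 𝓜} (e : A ≅ B) : Sim (𝟙 A) (𝟙 B) := ⟨e, e.symm, by simp⟩

omit [Preadditive 𝓜] in
/-- rearrangement of four factors -/
def shuf [BraidedCategory 𝓜] (A B C E : 𝓜) : (A ⊗ B) ⊗ (C ⊗ E) ≅ (A ⊗ C) ⊗ (B ⊗ E) :=
  α_ A B (C ⊗ E) ≪≫ whiskerLeftIso A ((α_ B C E).symm ≪≫ whiskerRightIso (β_ B C) E ≪≫
    α_ C B E) ≪≫ (α_ A C (B ⊗ E)).symm

omit [Preadditive 𝓜] in
/-- `L^i ⊗ L^j ≅ 1` if `i + j = 0` -/
theorem unit_iso (F : D.TensorFacts) {i j : ℤ} (h : i + j = 0) :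
    Nonempty (D.L i ⊗ D.L j ≅ 𝟙_ 𝓜) := by
  obtain ⟨e⟩ := F.L_add i j
  obtain ⟨e'⟩ := F.L_zero
  exact ⟨e ≪≫ eqToIso (by rw [h]) ≪≫ e'⟩

omit [Preadditive 𝓜] in
/-- `h(X_1 × ⋯ × Y_s) = h(X_1 × ⋯) ⊗ h(⋯ × Y_s)` -/
theorem prod_append (D : Data G 𝓜) (l l' : List G.Var) :
    Nonempty (D.prod (l ++ l') ≅ D.prod l ⊗ D.prod l') := by
  induction l with
  | nil => exact ⟨(λ_ _).symm⟩
  | cons X l ih =>
    obtain ⟨e⟩ := ih
    exact ⟨whiskerLeftIso (D.h X) e ≪≫ (α_ _ _ _).symm⟩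

theorem gen_L (_ : D.TensorFacts) (i : ℤ) : D.Gen (D.L i) :=
  fac_of (summand_iso (λ_ _).symm) ⟨[], i, by simp, rfl⟩

theorem gen_prod (F : D.TensorFacts) {l : List G.Var} (hl : ∀ X ∈ l, G.dim X = 2 ∧ G.SC X) :
    D.Gen (D.prod l) := by
  obtain ⟨e⟩ := F.L_zero
  exact fac_of (summand_iso ((ρ_ _).symm ≪≫ whiskerLeftIso _ e.symm)) ⟨l, 0, hl, rfl⟩

theorem gen_unit (F : D.TensorFacts) : D.Gen (𝟙_ 𝓜) := gen_prod F (l := []) (by simp)

theorem gen_sc (F : D.TensorFacts) {S : G.Var} (hS : G.dim S = 2) (h : G.SC S) :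
    D.Gen (D.h S) :=
  fac_summand (summand_iso (ρ_ _).symm) (gen_prod F (l := [S]) (by simp [hS, h]))

variable [MonoidalPreadditive 𝓜] [BraidedCategory 𝓜]

theorem gen_tensor (F : D.TensorFacts) {N N' : 𝓜} (h : D.Gen N) (h' : D.Gen N') :
    D.Gen (N ⊗ N') := by
  refine fac_tensor h h' ?_
  rintro _ _ ⟨l, i, hl, rfl⟩ ⟨l', i', hl', rfl⟩
  obtain ⟨e⟩ := prod_append D l l'
  obtain ⟨e'⟩ := F.L_add i i'
  refine fac_of (K := D.prod (l ++ l') ⊗ D.L (i + i')) (summand_iso ?_)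
    ⟨l ++ l', i + i', ?_, rfl⟩
  · exact (shuf (D.prod l) (D.L i) (D.prod l') (D.L i')) ≪≫ tensorIso e.symm e'
  · intro X hX
    rcases List.mem_append.1 hX with hX | hX
    exacts [hl X hX, hl' X hX]

theorem gen_tp (F : D.TensorFacts) {N : 𝓜} (h : D.Gen N) (m : ℕ) : D.Gen (tp N m) := by
  induction m with
  | zero => exact gen_unit F
  | succ m ih => exact gen_tensor F h ih

/-- Tate twists of `V`. -/
theorem V_twist (F : D.TensorFacts) {N : 𝓜} (h : D.V N) (i : ℤ) : D.V (N ⊗ D.L i) := by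
  intro k f hf
  obtain ⟨e1⟩ := F.L_add k (-i)
  obtain ⟨e2⟩ := unit_iso F (add_neg_cancel i)
  obtain ⟨e3⟩ := unit_iso F (neg_add_cancel i)
  let e4 : (N ⊗ D.L i) ⊗ D.L (-i) ≅ N := α_ _ _ _ ≪≫ whiskerLeftIso N e2 ≪≫ ρ_ N
  let f' : D.L (k + -i) ⟶ N := e1.inv ≫ (f ⊗ₘ 𝟙 (D.L (-i))) ≫ e4.hom
  have h1 : SmashNil f' := h _ _ (F.comp_null _ _ (F.null_comp _ _ (F.null_tensor _ _ hf)))
  have h2 : Sim f' (f ⊗ₘ 𝟙 (D.L (-i))) := ⟨e1.symm, e4, rfl⟩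
  have h3 : Sim (f' ⊗ₘ 𝟙 (D.L i)) f :=
    (h2.tensor (Sim.refl _)).trans <| (sim_assoc _ _ _).trans <|
      ((Sim.refl f).tensor ((by
        rw [MonoidalCategory.id_tensorHom_id]
        exact sim_id e3 : Sim (𝟙 (D.L (-i)) ⊗ₘ 𝟙 (D.L i)) (𝟙 (𝟙_ 𝓜))))).trans (sim_unit f)
  exact smashNil_sim h3.symm (smashNil_tensor _ h1)

theorem V_of_fac (F : D.TensorFacts) {𝒞 : 𝓜 → Prop} {N : 𝓜} (h : Fac 𝒞 N)
    (hc : ∀ K, 𝒞 K → D.V K) : D.V N := by
  obtain ⟨ι, _, K, a, b, hK, hs⟩ := h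
  intro i f hf
  have h1 : f = ∑ j, (f ≫ a j) ≫ b j := by
    conv_lhs => rw [← Category.comp_id f, ← hs, Preadditive.comp_sum]
    exact Finset.sum_congr rfl fun j _ => (Category.assoc _ _ _).symm
  rw [h1]
  exact smashNil_sum _ _ fun j _ => smashNil_comp _ (hc _ (hK j) i _ (F.null_comp _ _ hf))

/-- Voevodsky's conjecture for the products of simply connected surfaces. -/
def ScV (D : Data G 𝓜) : Prop :=
  ∀ l : List G.Var, (∀ X ∈ l, G.dim X = 2 ∧ G.SC X) → D.V (D.prod l)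

theorem V_gen (F : D.TensorFacts) (h : ScV D) {N : 𝓜} (hN : D.Gen N) : D.V N := by
  refine V_of_fac F hN ?_
  rintro _ ⟨l, i, hl, rfl⟩
  exact V_twist F (h l hl) i

section dual

variable [RightRigidCategory 𝓜]

theorem gen_dual (F : D.TensorFacts) {N : 𝓜} (h : D.Gen N) : D.Gen (Nᘁ) := by
  refine fac_dual h ?_
  rintro _ ⟨l, i, hl, rfl⟩
  have h1 : ∀ l : List G.Var, (∀ X ∈ l, G.dim X = 2 ∧ G.SC X) →
      ∃ Y, D.Gen Y ∧ Nonempty (ExactPairing (D.prod l) Y) := by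
    intro l
    induction l with
    | nil => exact fun _ => ⟨𝟙_ 𝓜, gen_unit F, ⟨exactPairingUnit⟩⟩
    | cons X l ih =>
      intro hl
      obtain ⟨Y, hY, ⟨p⟩⟩ := ih fun X hX => hl X (List.mem_cons_of_mem _ hX)
      have hX := hl X List.mem_cons_self
      obtain ⟨q⟩ := F.dual X hX.1
      have := p
      have := q
      exact ⟨Y ⊗ (D.h X ⊗ D.L (-2)), gen_tensor F hY (gen_tensor F (gen_sc F hX.1 hX.2)
        (gen_L F _)), ⟨ExactPairing.tensor⟩⟩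
  obtain ⟨Y, hY, ⟨p⟩⟩ := h1 l hl
  obtain ⟨q⟩ := F.L_dual i
  have := p
  have := q
  have p' : ExactPairing (D.prod l ⊗ D.L i) (D.L (-i) ⊗ Y) := ExactPairing.tensor
  exact fac_summand (summand_iso (rightDualIso HasRightDual.exact p'))
    (gen_tensor F (gen_L F _) hY)

/-- Null morphisms between generated motives are smash-nilpotent. -/
theorem null_smash (F : D.TensorFacts) (h : ScV D) {N K : 𝓜} (hN : D.Gen N) (hK : D.Gen K)
    (f : N ⟶ K) (hf : D.null f) : SmashNil f := by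
  obtain ⟨e⟩ := F.L_zero
  refine smashNil_of_name (D := Nᘁ) f ?_
  have h1 : D.null (e.hom ≫ η_ N Nᘁ ≫ (f ▷ Nᘁ)) := by
    refine F.comp_null _ _ (F.comp_null _ _ ?_)
    rw [← MonoidalCategory.tensorHom_id]
    exact F.null_tensor _ _ hf
  have h2 := V_gen F h (gen_tensor F hK (gen_dual F hN)) 0 _ h1
  have h3 : η_ N Nᘁ ≫ (f ▷ Nᘁ) = e.inv ≫ (e.hom ≫ η_ N Nᘁ ≫ (f ▷ Nᘁ)) := by simp
  rw [h3]
  exact comp_smashNil _ h2

theorem idem_zero (F : D.TensorFacts) (h : ScV D) {N : 𝓜} (hN : D.Gen N) (p : N ⟶ N)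
    (hp : p ≫ p = p) (hn : D.null p) : p = 0 :=
  idem_eq_zero (D := Nᘁ) p hp (null_smash F h hN hN p hn)

end dual

section odd

variable [Linear ℚ 𝓜]

omit [MonoidalPreadditive 𝓜] [BraidedCategory 𝓜] in
theorem sym_idem (D : Data G 𝓜) (N : 𝓜) (m : ℕ) : D.sym N m ≫ D.sym N m = D.sym N m := by
  have hm : (m.factorial : ℚ) ≠ 0 := Nat.cast_ne_zero.2 (Nat.factorial_ne_zero m)
  have h1 : ∀ σ : Equiv.Perm (Fin m), (D.perm N m σ : tp N m ⟶ tp N m) ≫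
      (∑ τ : Equiv.Perm (Fin m), (D.perm N m τ : tp N m ⟶ tp N m)) =
        ∑ τ : Equiv.Perm (Fin m), (D.perm N m τ : tp N m ⟶ tp N m) := by
    intro σ
    rw [Preadditive.comp_sum]
    refine Fintype.sum_equiv (Equiv.mulRight σ) _ _ fun τ => ?_
    exact (map_mul (D.perm N m) τ σ).symm
  have h2 : (∑ σ : Equiv.Perm (Fin m), (D.perm N m σ : tp N m ⟶ tp N m)) ≫
      (∑ τ : Equiv.Perm (Fin m), (D.perm N m τ : tp N m ⟶ tp N m)) =
        (m.factorial : ℚ) • ∑ τ : Equiv.Perm (Fin m), (D.perm N m τ : tp N m ⟶ tp N m) := by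
    rw [Preadditive.sum_comp, Finset.sum_congr rfl (fun σ _ => h1 σ), Finset.sum_const,
      Finset.card_univ, Fintype.card_perm, Fintype.card_fin, ← Nat.cast_smul_eq_nsmul ℚ]
  unfold Data.sym
  rw [Linear.smul_comp, Linear.comp_smul, h2, smul_smul, smul_smul, mul_assoc,
    inv_mul_cancel₀ hm, mul_one]

omit [MonoidalPreadditive 𝓜] [BraidedCategory 𝓜] in
theorem sym_cycle (F : D.TensorFacts) {N : 𝓜} {i : ℤ} (f : D.L i ⟶ N) (m : ℕ) :
    tpow f m ≫ D.sym N m = tpow f m := by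
  have hm : (m.factorial : ℚ) ≠ 0 := Nat.cast_ne_zero.2 (Nat.factorial_ne_zero m)
  unfold Data.sym
  rw [Linear.comp_smul, Preadditive.comp_sum, Finset.sum_congr rfl
    (fun σ _ => F.perm_cycle i f m σ), Finset.sum_const, Finset.card_univ, Fintype.card_perm,
    Fintype.card_fin, ← Nat.cast_smul_eq_nsmul ℚ, smul_smul, inv_mul_cancel₀ hm, one_smul]

omit [Preadditive 𝓜] [MonoidalPreadditive 𝓜] [BraidedCategory 𝓜] [Linear ℚ 𝓜] in
/-- `N^(⊗ 2k) = (N ⊗ N)^(⊗ k)` -/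
theorem tp_double (N : 𝓜) (k : ℕ) : Nonempty (tp N (2 * k) ≅ tp (N ⊗ N) k) := by
  induction k with
  | zero => exact ⟨Iso.refl _⟩
  | succ k ih =>
    obtain ⟨e⟩ := ih
    exact ⟨((α_ N N (tp N (2 * k))).symm ≪≫ whiskerLeftIso (N ⊗ N) e : _)⟩

/-- If `N ⊗ N` is generated by simply connected surfaces and some symmetric powers of `N` are
homologically trivial, then all cycles on `N` are smash-nilpotent. -/
theorem odd_cycles [RightRigidCategory 𝓜] (F : D.TensorFacts) (h : ScV D) {N : 𝓜}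
    (hN : D.Gen (N ⊗ N)) (b : ℕ) (hb : ∀ m, b ≤ m → D.null (D.sym N m)) (i : ℤ)
    (f : D.L i ⟶ N) : SmashNil f := by
  obtain ⟨e⟩ := tp_double N (b + 1)
  have h1 : D.sym N (2 * (b + 1)) = 0 :=
    idem_zero F h (fac_summand (summand_iso e) (gen_tp F hN (b + 1))) _ (sym_idem D N _)
      (hb _ (by omega))
  refine ⟨2 * (b + 1), by omega, ?_⟩
  rw [← sym_cycle F f (2 * (b + 1)), h1, comp_zero]

end odd

end Pool.Agent.Q226.PS
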