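import Mathlib

set_option autoImplicit false

/-!
# Smash-nilpotent morphisms

The general lemmas of the first two sections follow `Pool.Agent.Q200.HS.Smash`.
-/

open CategoryTheory MonoidalCategory

universe v u

namespace Pool.Agent.Q226.PS

section

variable {𝓜 : Type u} [Category.{v} 𝓜] [MonoidalCategory 𝓜]

/-- the tensor power `A^(⊗ m)` -/
def tp (A : 𝓜) : ℕ → 𝓜
  | 0 => 𝟙_ 𝓜
  | m + 1 => A ⊗ tp A m

/-- the tensor power `f^(⊗ m)`; for a cycle `f : L^i → h(X)` of codimension `i` on `X` it is the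
exterior power `f × ⋯ × f` on `X^m` -/
def tpow {A B : 𝓜} (f : A ⟶ B) : ∀ m : ℕ, tp A m ⟶ tp B m
  | 0 => 𝟙 _
  | m + 1 => f ⊗ₘ tpow f m

/-- `f` is smash-nilpotent: `f^(⊗ m) = 0` for some `m ≥ 1` -/
def SmashNil [Preadditive 𝓜] {A B : 𝓜} (f : A ⟶ B) : Prop := ∃ m : ℕ, 0 < m ∧ tpow f m = 0

end

section basics

variable {𝓜 : Type u} [Category.{v} 𝓜]

/-- `f` and `g` agree up to isomorphisms of the source and of the target -/
def Sim {A B C D : 𝓜} (f : A ⟶ B) (g : C ⟶ D) : Prop :=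
  ∃ (a : A ≅ C) (b : D ≅ B), f = a.hom ≫ g ≫ b.hom

lemma Sim.refl {A B : 𝓜} (f : A ⟶ B) : Sim f f := ⟨Iso.refl _, Iso.refl _, by simp⟩

lemma Sim.symm {A B C D : 𝓜} {f : A ⟶ B} {g : C ⟶ D} (h : Sim f g) : Sim g f := by
  obtain ⟨a, b, rfl⟩ := h
  exact ⟨a.symm, b.symm, by simp⟩

lemma Sim.trans {A B C D E F : 𝓜} {f : A ⟶ B} {g : C ⟶ D} {h : E ⟶ F} (h1 : Sim f g)
    (h2 : Sim g h) : Sim f h := by
  obtain ⟨a, b, rfl⟩ := h1
  obtain ⟨c, d, rfl⟩ := h2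
  exact ⟨a ≪≫ c, d ≪≫ b, by simp⟩

lemma Sim.zero [Preadditive 𝓜] {A B C D : 𝓜} {f : A ⟶ B} {g : C ⟶ D} (h : Sim f g)
    (hg : g = 0) : f = 0 := by
  obtain ⟨a, b, rfl⟩ := h
  simp [hg]

/-- composition with isomorphisms -/
lemma sim_comp {A B C D : 𝓜} (a : A ≅ C) (f : C ⟶ D) (b : D ≅ B) :
    Sim (a.hom ≫ f ≫ b.hom) f := ⟨a, b, rfl⟩

variable [MonoidalCategory 𝓜]

lemma Sim.tensor {A B C D A' B' C' D' : 𝓜} {f : A ⟶ B} {g : C ⟶ D} {f' : A' ⟶ B'} {g' : C' ⟶ D'}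
    (h : Sim f g) (h' : Sim f' g') : Sim (f ⊗ₘ f') (g ⊗ₘ g') := by
  obtain ⟨a, b, rfl⟩ := h
  obtain ⟨a', b', rfl⟩ := h'
  refine ⟨tensorIso a a', tensorIso b b', ?_⟩
  simp only [tensorIso_hom, MonoidalCategory.tensorHom_comp_tensorHom]

lemma sim_assoc {A B C D E F : 𝓜} (f : A ⟶ B) (g : C ⟶ D) (h : E ⟶ F) :
    Sim ((f ⊗ₘ g) ⊗ₘ h) (f ⊗ₘ (g ⊗ₘ h)) :=
  ⟨α_ _ _ _, (α_ _ _ _).symm, by simp⟩

lemma sim_unit {A B : 𝓜} (f : A ⟶ B) : Sim (f ⊗ₘ 𝟙 (𝟙_ 𝓜)) f :=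
  ⟨ρ_ _, (ρ_ _).symm, by simp⟩

lemma sim_unit' {A B : 𝓜} (f : A ⟶ B) : Sim (𝟙 (𝟙_ 𝓜) ⊗ₘ f) f :=
  ⟨λ_ _, (λ_ _).symm, by simp⟩

lemma sim_swap [BraidedCategory 𝓜] {A B C D : 𝓜} (f : A ⟶ B) (g : C ⟶ D) :
    Sim (f ⊗ₘ g) (g ⊗ₘ f) :=
  ⟨β_ _ _, (β_ _ _).symm, by simp⟩

/-- rearrangement -/
lemma sim_shuffle [BraidedCategory 𝓜] {A B C D E F G H : 𝓜} (f : A ⟶ B) (g : C ⟶ D)
    (h : E ⟶ F) (k : G ⟶ H) : Sim ((f ⊗ₘ g) ⊗ₘ (h ⊗ₘ k)) ((f ⊗ₘ h) ⊗ₘ (g ⊗ₘ k)) :=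
  (sim_assoc f g (h ⊗ₘ k)).trans <| ((Sim.refl f).tensor <|
    (sim_assoc g h k).symm.trans <| ((sim_swap g h).tensor (Sim.refl k)).trans
      (sim_assoc h g k)).trans (sim_assoc f h (g ⊗ₘ k)).symm

lemma tpow_comp {A B C : 𝓜} (f : A ⟶ B) (g : B ⟶ C) (m : ℕ) :
    tpow (f ≫ g) m = tpow f m ≫ tpow g m := by
  induction m with
  | zero => exact (Category.id_comp _).symm
  | succ m ih =>
    show (f ≫ g) ⊗ₘ tpow (f ≫ g) m = (f ⊗ₘ tpow f m) ≫ (g ⊗ₘ tpow g m)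
    rw [ih, MonoidalCategory.tensorHom_comp_tensorHom]

lemma tpow_id (A : 𝓜) (m : ℕ) : tpow (𝟙 A) m = 𝟙 (tp A m) := by
  induction m with
  | zero => rfl
  | succ m ih =>
    show 𝟙 A ⊗ₘ tpow (𝟙 A) m = 𝟙 (A ⊗ tp A m)
    rw [ih, MonoidalCategory.id_tensorHom_id]

lemma Sim.tpow {A B C D : 𝓜} {f : A ⟶ B} {g : C ⟶ D} (h : Sim f g) (m : ℕ) :
    Sim (tpow f m) (tpow g m) := by
  induction m with
  | zero => exact Sim.refl _
  | succ m ih => exact h.tensor ih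

lemma tpow_tensor [BraidedCategory 𝓜] {A B C D : 𝓜} (f : A ⟶ B) (g : C ⟶ D) (m : ℕ) :
    Sim (tpow (f ⊗ₘ g) m) (tpow f m ⊗ₘ tpow g m) := by
  induction m with
  | zero => exact (sim_unit _).symm
  | succ m ih => exact ((Sim.refl _).tensor ih).trans (sim_shuffle f g _ _)

/-- tensor product of the morphisms of a list -/
def word {A B : 𝓜} : ∀ l : List (A ⟶ B), tp A l.length ⟶ tp B l.length
  | [] => 𝟙 _
  | f :: l => f ⊗ₘ word l

lemma word_replicate {A B : 𝓜} (f : A ⟶ B) (m : ℕ) :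
    Sim (word (List.replicate m f)) (tpow f m) := by
  induction m with
  | zero => exact Sim.refl _
  | succ m ih => exact (Sim.refl f).tensor ih

lemma word_append {A B : 𝓜} (l l' : List (A ⟶ B)) :
    Sim (word (l ++ l')) (word l ⊗ₘ word l') := by
  induction l with
  | nil => exact (sim_unit' _).symm
  | cons f l ih => exact ((Sim.refl f).tensor ih).trans (sim_assoc _ _ _).symm

lemma word_perm [BraidedCategory 𝓜] {A B : 𝓜} {l l' : List (A ⟶ B)} (h : l.Perm l') :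
    Sim (word l) (word l') := by
  induction h with
  | nil => exact Sim.refl _
  | cons f _ ih => exact (Sim.refl f).tensor ih
  | swap f g l =>
    exact (sim_assoc g f _).symm.trans (((sim_swap g f).tensor (Sim.refl _)).trans
      (sim_assoc f g _))
  | trans _ _ ih₁ ih₂ => exact ih₁.trans ih₂

end basics

section nil

variable {𝓜 : Type u} [Category.{v} 𝓜] [MonoidalCategory 𝓜] [Preadditive 𝓜]

lemma smashNil_sim {A B C D : 𝓜} {f : A ⟶ B} {g : C ⟶ D} (h : Sim f g) (hg : SmashNil g) :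
    SmashNil f := by
  obtain ⟨m, hm, h0⟩ := hg
  exact ⟨m, hm, (h.tpow m).zero h0⟩

lemma smashNil_comp {A B C : 𝓜} {f : A ⟶ B} (g : B ⟶ C) (h : SmashNil f) :
    SmashNil (f ≫ g) := by
  obtain ⟨m, hm, h0⟩ := h
  exact ⟨m, hm, by rw [tpow_comp, h0, Limits.zero_comp]⟩

lemma comp_smashNil {A B C : 𝓜} (f : A ⟶ B) {g : B ⟶ C} (h : SmashNil g) :
    SmashNil (f ≫ g) := by
  obtain ⟨m, hm, h0⟩ := h
  exact ⟨m, hm, by rw [tpow_comp, h0, Limits.comp_zero]⟩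

variable [MonoidalPreadditive 𝓜]

lemma smashNil_zero {A B : 𝓜} : SmashNil (0 : A ⟶ B) :=
  ⟨1, one_pos, MonoidalPreadditive.zero_tensor _⟩

lemma word_zero_append {A B : 𝓜} {l l' : List (A ⟶ B)} (h : word l = 0) : word (l ++ l') = 0 := by
  refine (word_append l l').zero ?_
  rw [h]
  exact MonoidalPreadditive.zero_tensor _

variable [BraidedCategory 𝓜]

lemma smashNil_tensor {A B C D : 𝓜} {f : A ⟶ B} (g : C ⟶ D) (h : SmashNil f) :
    SmashNil (f ⊗ₘ g) := by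
  obtain ⟨m, hm, h0⟩ := h
  refine ⟨m, hm, (tpow_tensor f g m).zero ?_⟩
  rw [h0]
  exact MonoidalPreadditive.zero_tensor _

lemma word_add {A B : 𝓜} (f g : A ⟶ B) (m : ℕ) (l : List (A ⟶ B))
    (h : ∀ p q, p + q = m → word (List.replicate p f ++ List.replicate q g ++ l) = 0) :
    word (List.replicate m (f + g) ++ l) = 0 := by
  induction m generalizing l with
  | zero => exact h 0 0 rfl
  | succ m ih =>
    have e : word (List.replicate (m + 1) (f + g) ++ l) =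
        word (f :: (List.replicate m (f + g) ++ l)) +
          word (g :: (List.replicate m (f + g) ++ l)) := by
      show (f + g) ⊗ₘ word (List.replicate m (f + g) ++ l) = _
      rw [MonoidalPreadditive.add_tensor]
      rfl
    rw [e]
    have h1 : word (f :: (List.replicate m (f + g) ++ l)) = 0 := by
      have p1 : (f :: (List.replicate m (f + g) ++ l)).Perm
          (List.replicate m (f + g) ++ f :: l) := List.perm_middle.symm
      refine (word_perm p1).zero (ih (f :: l) (fun p q hpq => ?_))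
      have p2 : (List.replicate p f ++ List.replicate q g ++ f :: l).Perm
          (List.replicate (p + 1) f ++ List.replicate q g ++ l) :=
        List.perm_middle.trans (by rw [List.replicate_succ]; rfl)
      exact (word_perm p2).zero (h (p + 1) q (by omega))
    have h2 : word (g :: (List.replicate m (f + g) ++ l)) = 0 := by
      have p1 : (g :: (List.replicate m (f + g) ++ l)).Perm
          (List.replicate m (f + g) ++ g :: l) := List.perm_middle.symm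
      refine (word_perm p1).zero (ih (g :: l) (fun p q hpq => ?_))
      have p2 : (List.replicate p f ++ List.replicate q g ++ g :: l).Perm
          (List.replicate p f ++ List.replicate (q + 1) g ++ l) := by
        rw [List.append_assoc, List.append_assoc]
        refine List.Perm.append_left _ ?_
        exact List.perm_middle.trans (by rw [List.replicate_succ]; rfl)
      exact (word_perm p2).zero (h p (q + 1) (by omega))
    rw [h1, h2, add_zero]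

lemma smashNil_add {A B : 𝓜} {f g : A ⟶ B} (hf : SmashNil f) (hg : SmashNil g) :
    SmashNil (f + g) := by
  obtain ⟨a, ha, h1⟩ := hf
  obtain ⟨b, hb, h2⟩ := hg
  have h3 : word (List.replicate a f) = 0 := (word_replicate f a).zero h1
  have h4 : word (List.replicate b g) = 0 := (word_replicate g b).zero h2
  refine ⟨a + b, by omega, ?_⟩
  refine (word_replicate (f + g) (a + b)).symm.zero ?_
  have h5 := word_add f g (a + b) [] (fun p q hpq => ?_)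
  · rwa [List.append_nil] at h5
  rw [List.append_nil]
  rcases Nat.lt_or_ge p a with hp | hp
  · obtain ⟨t, rfl⟩ := Nat.exists_eq_add_of_le (show b ≤ q by omega)
    rw [List.replicate_add]
    have p1 : (List.replicate p f ++ (List.replicate b g ++ List.replicate t g)).Perm
        (List.replicate b g ++ (List.replicate t g ++ List.replicate p f)) := by
      rw [← List.append_assoc (List.replicate b g)]
      exact List.perm_append_comm
    exact (word_perm p1).zero (word_zero_append h4)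
  · obtain ⟨t, rfl⟩ := Nat.exists_eq_add_of_le hp
    rw [List.replicate_add, List.append_assoc]
    exact word_zero_append h3

lemma smashNil_sum {A B : 𝓜} {ι : Type} (s : Finset ι) (f : ι → (A ⟶ B))
    (h : ∀ j ∈ s, SmashNil (f j)) : SmashNil (∑ j ∈ s, f j) := by
  classical
  induction s using Finset.induction_on with
  | empty => simpa using smashNil_zero
  | insert i s hi ih =>
    rw [Finset.sum_insert hi]
    exact smashNil_add (h i (Finset.mem_insert_self _ _))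
      (ih fun j hj => h j (Finset.mem_insert_of_mem hj))

end nil

section rigid

variable {𝓜 : Type u} [Category.{v} 𝓜] [MonoidalCategory 𝓜]

/-- the composition of two morphisms as a contraction of their tensor product -/
lemma contraction {N K D : 𝓜} [ExactPairing N D] (a : N ⟶ K) (b : N ⟶ N) :
    b ≫ a = (λ_ N).inv ≫ (η_ N D ▷ N) ≫ ((a ⊗ₘ 𝟙 D) ⊗ₘ b) ≫ (α_ K D N).hom ≫
      (K ◁ ε_ N D) ≫ (ρ_ K).hom := by
  have h1 : ((a ⊗ₘ 𝟙 D) ⊗ₘ b) = ((N ⊗ D) ◁ b) ≫ ((a ▷ D) ▷ N) := by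
    rw [MonoidalCategory.tensorHom_id, MonoidalCategory.tensorHom_def']
  have h2 : (η_ N D ▷ N) ≫ ((N ⊗ D) ◁ b) = (𝟙_ 𝓜 ◁ b) ≫ (η_ N D ▷ N) :=
    (whisker_exchange (η_ N D) b).symm
  have h3 : ((a ▷ D) ▷ N) ≫ (α_ K D N).hom = (α_ N D N).hom ≫ (a ▷ (D ⊗ N)) := by
    simp
  have h4 : (a ▷ (D ⊗ N)) ≫ (K ◁ ε_ N D) = (N ◁ ε_ N D) ≫ (a ▷ 𝟙_ 𝓜) :=
    (whisker_exchange a (ε_ N D)).symm
  calc b ≫ a = b ≫ (λ_ N).inv ≫ ((λ_ N).hom ≫ (ρ_ N).inv) ≫ (ρ_ N).hom ≫ a := by simp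
    _ = b ≫ (λ_ N).inv ≫ ((η_ N D ▷ N) ≫ (α_ N D N).hom ≫ (N ◁ ε_ N D)) ≫
          (ρ_ N).hom ≫ a := by rw [ExactPairing.evaluation_coevaluation]
    _ = (λ_ N).inv ≫ ((𝟙_ 𝓜 ◁ b) ≫ (η_ N D ▷ N)) ≫ (α_ N D N).hom ≫ (N ◁ ε_ N D) ≫
          (a ▷ 𝟙_ 𝓜) ≫ (ρ_ K).hom := by simp
    _ = (λ_ N).inv ≫ ((η_ N D ▷ N) ≫ ((N ⊗ D) ◁ b)) ≫ (α_ N D N).hom ≫
          ((a ▷ (D ⊗ N)) ≫ (K ◁ ε_ N D)) ≫ (ρ_ K).hom := by
        rw [h2, h4]; simp only [Category.assoc]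
    _ = (λ_ N).inv ≫ (η_ N D ▷ N) ≫ ((N ⊗ D) ◁ b) ≫ (((a ▷ D) ▷ N) ≫ (α_ K D N).hom) ≫
          (K ◁ ε_ N D) ≫ (ρ_ K).hom := by
        rw [h3]; simp only [Category.assoc]
    _ = _ := by rw [h1]; simp only [Category.assoc]

variable [Preadditive 𝓜] [MonoidalPreadditive 𝓜] [BraidedCategory 𝓜]

/-- A morphism `f : N ⟶ K` is smash-nilpotent if the corresponding `𝟙 ⟶ K ⊗ N^∨` is. -/
lemma smashNil_of_name {N K D : 𝓜} [ExactPairing N D] (f : N ⟶ K)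
    (h : SmashNil (η_ N D ≫ (f ▷ D))) : SmashNil f := by
  have h1 : f = (λ_ N).inv ≫ ((η_ N D ≫ (f ▷ D)) ⊗ₘ 𝟙 N) ≫ ((α_ K D N).hom ≫
      (K ◁ ε_ N D) ≫ (ρ_ K).hom) := by
    have h2 := contraction (D := D) f (𝟙 N)
    rw [Category.id_comp] at h2
    refine h2.trans ?_
    simp only [MonoidalCategory.tensorHom_id, comp_whiskerRight, Category.assoc]
  rw [h1]
  exact comp_smashNil _ (smashNil_comp _ (smashNil_tensor _ h))

omit [BraidedCategory 𝓜] in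
/-- (Voevodsky) A smash-nilpotent idempotent endomorphism of a dualizable object is zero. -/
lemma idem_eq_zero [BraidedCategory 𝓜] {N D : 𝓜} [ExactPairing N D] (p : N ⟶ N)
    (hp : p ≫ p = p) (h : SmashNil p) : p = 0 := by
  have key : ∀ m : ℕ, ∃ (W : 𝓜) (x : N ⟶ tp N m ⊗ W) (y : tp N m ⊗ W ⟶ N),
      p = x ≫ (tpow p m ⊗ₘ 𝟙 W) ≫ y := by
    intro m
    induction m with
    | zero =>
      refine ⟨N, (λ_ N).inv, (λ_ N).hom ≫ p, ?_⟩
      show p = (λ_ N).inv ≫ (𝟙 (𝟙_ 𝓜) ⊗ₘ 𝟙 N) ≫ (λ_ N).hom ≫ p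
      simp
    | succ m ih =>
      obtain ⟨W, x, y, hxy⟩ := ih
      obtain ⟨a, b, hab⟩ := sim_shuffle p (𝟙 D) (tpow p m) (𝟙 W)
      have h1 : ((p ⊗ₘ 𝟙 D) ⊗ₘ p) = ((N ⊗ D) ◁ x) ≫ ((p ⊗ₘ 𝟙 D) ⊗ₘ (tpow p m ⊗ₘ 𝟙 W)) ≫
          ((N ⊗ D) ◁ y) := by
        conv_lhs => rw [hxy]
        rw [← MonoidalCategory.id_tensorHom, ← MonoidalCategory.id_tensorHom,
          MonoidalCategory.tensorHom_comp_tensorHom, MonoidalCategory.tensorHom_comp_tensorHom,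
          Category.comp_id, Category.id_comp, ← hxy]
      have h2 := contraction (D := D) p p
      rw [hp, h1, hab] at h2
      refine ⟨D ⊗ W, (λ_ N).inv ≫ (η_ N D ▷ N) ≫ ((N ⊗ D) ◁ x) ≫ a.hom,
        b.hom ≫ ((N ⊗ D) ◁ y) ≫ (α_ N D N).hom ≫ (N ◁ ε_ N D) ≫ (ρ_ N).hom, ?_⟩
      refine h2.trans ?_
      show _ = ((λ_ N).inv ≫ (η_ N D ▷ N) ≫ ((N ⊗ D) ◁ x) ≫ a.hom) ≫
        ((p ⊗ₘ tpow p m) ⊗ₘ 𝟙 (D ⊗ W)) ≫
        b.hom ≫ ((N ⊗ D) ◁ y) ≫ (α_ N D N).hom ≫ (N ◁ ε_ N D) ≫ (ρ_ N).hom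
      rw [MonoidalCategory.id_tensorHom_id]
      simp only [Category.assoc]
  obtain ⟨m, -, h0⟩ := h
  obtain ⟨W, x, y, hxy⟩ := key m
  rw [hxy, h0, MonoidalPreadditive.zero_tensor, Limits.zero_comp, Limits.comp_zero]

end rigid

end Pool.Agent.Q226.PS
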