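import Pool.Agent.Q226.SC.Kimura
import Pool.Agent.Q226.PS.Smash

set_option autoImplicit false

/-!
# Chow motives of products of surfaces and abelian varieties: data and known facts
-/

open CategoryTheory CategoryTheory.Limits MonoidalCategory

universe v u

namespace Pool.Agent.Q226.PS

open Pool.Agent.Q226.SC (Geo Motives IsSummand PowerFibres)

/-- The smooth projective connected complex varieties are given by `G`. The category `𝓜` is the
category of (contravariant) Chow motives over `ℂ` with rational coefficients, with its tensor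
product. -/
structure Data (G : Geo) (𝓜 : Type u) [Category.{v} 𝓜] [MonoidalCategory 𝓜] where
  /-- the Chow motive `h(X)` of a variety -/
  h : G.Var → 𝓜
  /-- the power `L^i` of the Lefschetz motive, `i ∈ ℤ` (a Tate twist if `i < 0`) -/
  L : ℤ → 𝓜
  /-- the variety is an abelian variety -/
  AV : G.Var → Prop
  /-- the summand `h^j(A)` of the motive of an abelian variety `A` (Deninger-Murre) -/
  comp : G.Var → ℕ → 𝓜
  /-- the morphism is homologically trivial: it acts as zero on the rational cohomology -/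
  null : ∀ {M N : 𝓜}, (M ⟶ N) → Prop
  /-- the permutations of the factors of the tensor power `N^(⊗ m)` -/
  perm : ∀ (N : 𝓜) (m : ℕ), Equiv.Perm (Fin m) →* End (tp N m)

variable {G : Geo} {𝓜 : Type u} [Category.{v} 𝓜] [MonoidalCategory 𝓜]

/-- The motive `h(X_1) ⊗ ⋯ ⊗ h(X_r)` of the product `X_1 × ⋯ × X_r`. -/
def Data.prod (D : Data G 𝓜) : List G.Var → 𝓜
  | [] => 𝟙_ 𝓜
  | X :: l => D.h X ⊗ D.prod l

variable [Preadditive 𝓜]

/-- **Voevodsky's conjecture for the motive `N`.** All homologically trivial cycles on `N`, i.e. in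
`CH^i(N) = Hom(L^i, N)` for any `i`, are smash-nilpotent. -/
def Data.V (D : Data G 𝓜) (N : 𝓜) : Prop := ∀ (i : ℤ) (f : D.L i ⟶ N), D.null f → SmashNil f

/-- `N` is a direct summand of a finite direct sum of objects with the property `𝒞`: the identity
of `N` is a finite sum of morphisms that factor through such objects. -/
def Fac (𝒞 : 𝓜 → Prop) (N : 𝓜) : Prop :=
  ∃ (ι : Type) (_ : Fintype ι) (K : ι → 𝓜) (a : ∀ j, N ⟶ K j) (b : ∀ j, K j ⟶ N),
    (∀ j, 𝒞 (K j)) ∧ ∑ j, a j ≫ b j = 𝟙 N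

/-- The motives `h(S_1 × ⋯ × S_r) ⊗ L^i`, where the `S_j` are simply connected surfaces. -/
def Data.ScProd (D : Data G 𝓜) (N : 𝓜) : Prop :=
  ∃ (l : List G.Var) (i : ℤ), (∀ X ∈ l, G.dim X = 2 ∧ G.SC X) ∧ N = D.prod l ⊗ D.L i

/-- The direct summands of finite direct sums of motives `h(S_1 × ⋯ × S_r) ⊗ L^i`, where the `S_j`
are simply connected surfaces. -/
def Data.Gen (D : Data G 𝓜) (N : 𝓜) : Prop := Fac D.ScProd N

/-- Finite direct sums of Tate twists of motives of abelian varieties. -/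
inductive Data.AbSum [HasBinaryBiproducts 𝓜] (D : Data G 𝓜) : 𝓜 → Prop
  | twist (A : G.Var) (i : ℤ) : D.AV A → AbSum D (D.h A ⊗ D.L i)
  | sum (N K : 𝓜) : AbSum D N → AbSum D K → AbSum D (N ⊞ K)

/-- The data used in the facts on Albanese maps (`SC.Kimura`); the last entry is not used. -/
def Data.mot [HasBinaryBiproducts 𝓜] (D : Data G 𝓜) : Motives G 𝓜 where
  h := D.h
  Abel := D.AbSum
  FD := fun _ => True

/-- The projector `(1 / m!) ∑ σ` of `N^(⊗ m)`, with image `Sym^m N`. -/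
def Data.sym [Linear ℚ 𝓜] (D : Data G 𝓜) (N : 𝓜) (m : ℕ) : tp N m ⟶ tp N m :=
  (m.factorial : ℚ)⁻¹ • ∑ σ : Equiv.Perm (Fin m), (D.perm N m σ : tp N m ⟶ tp N m)

/-- Known formal properties of Chow motives. -/
structure Data.TensorFacts (D : Data G 𝓜) : Prop where
  L_zero : Nonempty (D.L 0 ≅ 𝟙_ 𝓜)
  L_add : ∀ i j : ℤ, Nonempty (D.L i ⊗ D.L j ≅ D.L (i + j))
  L_dual : ∀ i : ℤ, Nonempty (ExactPairing (D.L i) (D.L (-i)))
  /-- Poincaré duality for surfaces: the dual of `h(X)` is `h(X) ⊗ L^(-2)` -/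
  dual : ∀ X : G.Var, G.dim X = 2 → Nonempty (ExactPairing (D.h X) (D.h X ⊗ D.L (-2)))
  null_comp : ∀ {M N P : 𝓜} (f : M ⟶ N) (g : N ⟶ P), D.null f → D.null (f ≫ g)
  comp_null : ∀ {M N P : 𝓜} (f : M ⟶ N) (g : N ⟶ P), D.null g → D.null (f ≫ g)
  null_tensor : ∀ {M N P Q : 𝓜} (f : M ⟶ N) (g : P ⟶ Q), D.null f → D.null (f ⊗ₘ g)
  /-- the exterior powers of a cycle are symmetric -/
  perm_cycle : ∀ {N : 𝓜} (i : ℤ) (f : D.L i ⟶ N) (m : ℕ) (σ : Equiv.Perm (Fin m)),
    tpow f m ≫ (D.perm N m σ : tp N m ⟶ tp N m) = tpow f m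

/-- Known facts on surfaces.
* `powers`: fibres of sums of Albanese maps (see `SC.Kimura`, `SC.Power`).
* `squares`: for a surface `X` with `H¹(X) = 0` let `S' ⊂ X^[2]` be a smooth complete intersection
  surface of two general divisors of class `a l^(2) - b E`, where `l^(2)` comes from an ample class
  `l` of `X` and `2 E` is the exceptional divisor; its fundamental group is that of `X^[2]`, i.e. the
  finite group `H₁(X, ℤ)`, and its universal cover `S` is a simply connected surface. The composition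
  `h(X) → h(S') → h(X)` of the incidence correspondence and its transpose is
  `2 (a² l² - 2 b²) + 2 a² (l₁ + l₂)²`; the last term factors through `1`, `L` and `L²`, and
  `h(S')` is a direct summand of `h(S)`.
* `common`: a complete intersection surface `S'' ⊂ S × S'` is simply connected by Lefschetz'
  theorem, and dominates `S` and `S'`.
* `lef`: `1`, `L` and `L²` are direct summands of `h(S)` (for `L`: an ample class).
* `low`: if `dim X ≤ 1` then `h(X)` is a direct summand of the motive of the surface `X × ℙ¹` or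
  `X × ℙ²`. -/
structure Data.SurfaceFacts [Linear ℚ 𝓜] [HasBinaryBiproducts 𝓜] (D : Data G 𝓜) : Prop where
  powers : PowerFibres D.mot
  squares : ∀ X : G.Var, G.dim X = 2 → G.Reg X →
    ∃ (S : G.Var) (t : D.h X ⟶ D.h S) (u : D.h S ⟶ D.h X) (c : ℚ) (n : ℕ) (k : Fin n → ℤ)
      (a : ∀ j, D.h X ⟶ D.L (k j)) (b : ∀ j, D.L (k j) ⟶ D.h X),
      G.dim S = 2 ∧ G.SC S ∧ c ≠ 0 ∧ t ≫ u = c • 𝟙 (D.h X) + ∑ j, a j ≫ b j
  common : ∀ S S' : G.Var, G.dim S = 2 → G.SC S → G.dim S' = 2 → G.SC S' → ∃ S'' : G.Var,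
    G.dim S'' = 2 ∧ G.SC S'' ∧ IsSummand (D.h S) (D.h S'') ∧ IsSummand (D.h S') (D.h S'')
  lef : ∀ S : G.Var, G.dim S = 2 → ∀ c : ℕ, c ≤ 2 → IsSummand (D.L c) (D.h S)
  low : ∀ X : G.Var, G.dim X ≤ 1 → ∃ Y : G.Var, G.dim Y = 2 ∧ IsSummand (D.h X) (D.h Y)

/-- Let `A` be an abelian variety of dimension `g ≥ 3`, let `S ⊂ A / (± 1)` be a general complete
intersection surface of ample divisors (it is smooth and contains no singular point of `A / (± 1)`),
and `Y ⊂ A` its inverse image, a smooth complete intersection surface without fixed points of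
`-1`, with `S = Y / (± 1)`. -/
structure Kummer (D : Data G 𝓜) (A : G.Var) where
  /-- the surface `Y` -/
  Y : G.Var
  /-- the surface `S = Y / (± 1)` -/
  S : G.Var
  /-- the inclusion -/
  j : G.Mor Y A
  /-- the quotient map -/
  q : G.Mor Y S
  /-- `-1` on `A` -/
  neg : G.Mor A A
  /-- `-1` on `Y` -/
  negY : G.Mor Y Y
  /-- the inclusion `h²(A) → h(A)` -/
  inc : D.comp A 2 ⟶ D.h A
  /-- the morphism `j^*` -/
  res : D.h A ⟶ D.h Y
  /-- the morphism `(-1)^*` of `h(A)` -/
  sA : D.h A ⟶ D.h A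
  /-- the morphism `(-1)^*` of `h(Y)` -/
  sY : D.h Y ⟶ D.h Y
  /-- the morphism `q_*` -/
  push : D.h Y ⟶ D.h S
  /-- the morphism `q^*` -/
  pull : D.h S ⟶ D.h Y
  /-- `j_* : h(Y) → h(A)(g - 2)` followed by the projection to `h^(2g-2)(A)(g - 2)` and by the
  inverse of the Lefschetz isomorphism `h²(A) → h^(2g-2)(A)(g - 2)` given by the class of `Y` -/
  lef : D.h Y ⟶ D.comp A 2

/-- Known facts. -/
structure Kummer.Good {D : Data G 𝓜} {A : G.Var} (K : Kummer D A) : Prop where
  dim : G.dim K.S = 2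
  /-- Lefschetz' hyperplane theorem: `H¹(A) → H¹(Y)` is surjective -/
  hyper : ∀ c : G.H1 K.Y, ∃ w : G.H1 A, G.res K.j w = c
  /-- `-1` acts as `-1` on `H¹(A)` -/
  neg : ∀ w : G.H1 A, G.res K.neg w = -w
  equiv : ∀ w : G.H1 A, G.res K.negY (G.res K.j w) = G.res K.j (G.res K.neg w)
  quot : ∀ c : G.H1 K.S, G.res K.negY (G.res K.q c) = G.res K.q c
  inj : ∀ c : G.H1 K.S, G.res K.q c = 0 → c = 0
  /-- `-1` acts as `1` on `h²(A)` -/
  two : K.inc ≫ K.sA = K.inc
  equivM : K.sA ≫ K.res = K.res ≫ K.sY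
  quotM : K.push ≫ K.pull = 𝟙 _ + K.sY
  /-- the Lefschetz theorem for Chow motives of abelian varieties (Künnemann) -/
  lefschetz : K.inc ≫ K.res ≫ K.lef = 𝟙 _

/-- Known facts on abelian varieties.
* `dm`: the decomposition `h(A) = ⨁ h^j(A)` (Deninger-Murre).
* `zero`: `h⁰(A) = 1`.
* `mul`: for `C = A × B`, the motive `h^(j+k)(C)` is the direct sum of the `h^a(A) ⊗ h^b(B)`,
  `a + b = j + k`.
* `pow`: `h^(2j)(A)` is a direct summand of `h¹(A)^(⊗ 2j)` (Shermenev, Künnemann).
* `odd`: if `P` is generated by simply connected surfaces and `j` is odd, then `P ⊗ h^j(A)` has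
  cohomology only in odd degrees, so that the cohomology of `Sym^m (P ⊗ h^j(A))` is zero if `m` is
  greater than the dimension of the cohomology of `P ⊗ h^j(A)`. -/
structure Data.AbelianFacts [Linear ℚ 𝓜] (D : Data G 𝓜) : Prop where
  large : ∃ A : G.Var, D.AV A ∧ 3 ≤ G.dim A
  dm : ∀ A : G.Var, D.AV A → Fac (fun N => ∃ j : ℕ, N = D.comp A j) (D.h A)
  zero : ∀ A : G.Var, D.AV A → Nonempty (D.comp A 0 ≅ 𝟙_ 𝓜)
  mul : ∀ A B : G.Var, D.AV A → D.AV B → ∃ C : G.Var, D.AV C ∧ G.dim C = G.dim A + G.dim B ∧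
    ∀ j k : ℕ, IsSummand (D.comp A j ⊗ D.comp B k) (D.comp C (j + k))
  pow : ∀ A : G.Var, D.AV A → ∀ j : ℕ, IsSummand (D.comp A (2 * j))
    (tp (D.comp A 1 ⊗ D.comp A 1) j)
  kummer : ∀ A : G.Var, D.AV A → 3 ≤ G.dim A → ∃ K : Kummer D A, K.Good
  odd : ∀ (P : 𝓜) (A : G.Var) (j : ℕ), D.Gen P → D.AV A → Odd j →
    ∃ b : ℕ, ∀ m, b ≤ m → D.null (D.sym (P ⊗ D.comp A j) m)

/-- The known facts used. -/
structure Data.Facts [Linear ℚ 𝓜] [HasBinaryBiproducts 𝓜] (D : Data G 𝓜) : Prop where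
  tensor : D.TensorFacts
  surf : D.SurfaceFacts
  abel : D.AbelianFacts

/-- `h(S^r)` -/
def Data.power (D : Data G 𝓜) (S : G.Var) (r : ℕ) : 𝓜 := D.prod (List.replicate r S)

/-- Voevodsky's conjecture for the cycles of codimension `e` on `S^r`: the homologically trivial
elements of `CH^e(S^r)` are smash-nilpotent. -/
def Data.OneCodim (D : Data G 𝓜) (S : G.Var) (r e : ℕ) : Prop :=
  ∀ f : D.L e ⟶ D.power S r, D.null f → SmashNil f

/-- `𝒮` is a class of simply connected surfaces such that every simply connected surface is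
dominated by a surface in `𝒮`; only the consequence for the motives is used. For instance the simply
connected surfaces with very ample canonical class: complete intersections of large degree in
`S × S`. -/
structure Data.Cofinal (D : Data G 𝓜) (𝒮 : G.Var → Prop) : Prop where
  sc : ∀ S : G.Var, 𝒮 S → G.dim S = 2 ∧ G.SC S
  dom : ∀ S : G.Var, G.dim S = 2 → G.SC S → ∃ S' : G.Var, 𝒮 S' ∧ IsSummand (D.h S) (D.h S')

/-- For each `S` in `𝒮` and each `R` there are `r` and `e` such that Voevodsky's conjecture holds for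
the cycles of codimension `e` on `S^r` and `R ≤ e`, `R ≤ 2 r - e`: the codimension and the dimension
of the cycles are at least `R`. -/
def Data.Large (D : Data G 𝓜) (𝒮 : G.Var → Prop) : Prop := ∀ S : G.Var, 𝒮 S → ∀ R : ℕ,
  ∃ r e : ℕ, R ≤ e ∧ R + e ≤ 2 * r ∧ D.OneCodim S r e

/-- Voevodsky's conjecture for all cycles on all products of curves, surfaces and abelian
varieties. -/
def Data.AllProducts (D : Data G 𝓜) : Prop :=
  ∀ l : List G.Var, (∀ X ∈ l, G.dim X ≤ 2 ∨ D.AV X) → D.V (D.prod l)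

end Pool.Agent.Q226.PS
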