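import Pool.Agent.Q226.PS.Defs

set_option autoImplicit false

/-!
# Motives generated by a class of motives
-/

open CategoryTheory CategoryTheory.Limits MonoidalCategory

universe v u

namespace Pool.Agent.Q226.PS

open Pool.Agent.Q226.SC (Geo Motives IsSummand PowerFibres)

variable {G : Geo} {𝓜 : Type u} [Category.{v} 𝓜]

section basic

variable [Preadditive 𝓜]

theorem fac_of {𝒞 : 𝓜 → Prop} {N K : 𝓜} (h : IsSummand N K) (hK : 𝒞 K) : Fac 𝒞 N := by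
  obtain ⟨a, b, hab⟩ := h
  exact ⟨Unit, inferInstance, fun _ => K, fun _ => a, fun _ => b, fun _ => hK, by simpa using hab⟩

omit [Preadditive 𝓜] in
theorem summand_refl (N : 𝓜) : IsSummand N N := ⟨𝟙 _, 𝟙 _, by simp⟩

omit [Preadditive 𝓜] in
theorem summand_iso {N K : 𝓜} (e : N ≅ K) : IsSummand N K := ⟨e.hom, e.inv, by simp⟩

theorem fac_self {𝒞 : 𝓜 → Prop} {N : 𝓜} (h : 𝒞 N) : Fac 𝒞 N := fac_of (summand_refl N) h

theorem fac_mono {𝒞 𝒞' : 𝓜 → Prop} {N : 𝓜} (h : Fac 𝒞 N) (hc : ∀ K, 𝒞 K → 𝒞' K) : Fac 𝒞' N := by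
  obtain ⟨ι, i, K, a, b, hK, hs⟩ := h
  exact ⟨ι, i, K, a, b, fun j => hc _ (hK j), hs⟩

/-- `Fac` is idempotent. -/
theorem fac_fac {𝒞 : 𝓜 → Prop} {N : 𝓜} (h : Fac (Fac 𝒞) N) : Fac 𝒞 N := by
  classical
  obtain ⟨ι, _, K, a, b, hK, hs⟩ := h
  choose ι' i' K' a' b' hK' hs' using hK
  refine ⟨Σ j : ι, ι' j, inferInstance, fun p => K' p.1 p.2, fun p => a p.1 ≫ a' p.1 p.2,
    fun p => b' p.1 p.2 ≫ b p.1, fun p => hK' p.1 p.2, ?_⟩
  rw [Fintype.sum_sigma, ← hs]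
  refine Finset.sum_congr rfl fun j _ => ?_
  have h1 : a j ≫ b j = a j ≫ 𝟙 _ ≫ b j := by simp
  rw [h1, ← hs' j, Preadditive.sum_comp, Preadditive.comp_sum]
  exact Finset.sum_congr rfl fun k _ => by simp

theorem fac_trans {𝒞 𝒞' : 𝓜 → Prop} {N : 𝓜} (h : Fac 𝒞 N) (hc : ∀ K, 𝒞 K → Fac 𝒞' K) :
    Fac 𝒞' N := fac_fac (fac_mono h hc)

theorem fac_summand {𝒞 : 𝓜 → Prop} {N K : 𝓜} (h : IsSummand N K) (hK : Fac 𝒞 K) : Fac 𝒞 N :=
  fac_fac (fac_of h hK)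

theorem fac_sum [HasBinaryBiproducts 𝓜] {𝒞 : 𝓜 → Prop} {N K : 𝓜} (hN : Fac 𝒞 N)
    (hK : Fac 𝒞 K) : Fac 𝒞 (N ⊞ K) := by
  refine fac_fac ⟨Bool, inferInstance, fun b => if b then N else K,
    fun b => match b with
      | true => biprod.fst
      | false => biprod.snd,
    fun b => match b with
      | true => biprod.inl
      | false => biprod.inr, fun b => ?_, ?_⟩
  · cases b
    · exact hK
    · exact hN
  · rw [Fintype.sum_bool]
    exact biprod.total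

end basic

section tensor

variable [MonoidalCategory 𝓜] [Preadditive 𝓜]

omit [Preadditive 𝓜] in
theorem summand_tensor {N K N' K' : 𝓜} (h : IsSummand N K) (h' : IsSummand N' K') :
    IsSummand (N ⊗ N') (K ⊗ K') := by
  obtain ⟨a, b, hab⟩ := h
  obtain ⟨a', b', hab'⟩ := h'
  refine ⟨a ⊗ₘ a', b ⊗ₘ b', ?_⟩
  rw [MonoidalCategory.tensorHom_comp_tensorHom, hab, hab', MonoidalCategory.id_tensorHom_id]

variable [MonoidalPreadditive 𝓜]

theorem fac_tensor {𝒞 𝒞' 𝒟 : 𝓜 → Prop} {N N' : 𝓜} (h : Fac 𝒞 N) (h' : Fac 𝒞' N')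
    (hc : ∀ K K', 𝒞 K → 𝒞' K' → Fac 𝒟 (K ⊗ K')) : Fac 𝒟 (N ⊗ N') := by
  obtain ⟨ι, _, K, a, b, hK, hs⟩ := h
  obtain ⟨ι', _, K', a', b', hK', hs'⟩ := h'
  refine fac_fac ⟨ι × ι', inferInstance, fun p => K p.1 ⊗ K' p.2, fun p => a p.1 ⊗ₘ a' p.2,
    fun p => b p.1 ⊗ₘ b' p.2, fun p => hc _ _ (hK p.1) (hK' p.2), ?_⟩
  rw [← MonoidalCategory.id_tensorHom_id, ← hs, ← hs', sum_tensor, Fintype.sum_prod_type]
  refine Finset.sum_congr rfl fun j _ => ?_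
  rw [tensor_sum]
  exact Finset.sum_congr rfl fun k _ => MonoidalCategory.tensorHom_comp_tensorHom _ _ _ _

/-- Right duals of generated motives. -/
theorem fac_dual [RightRigidCategory 𝓜] {𝒞 𝒟 : 𝓜 → Prop} {N : 𝓜} (h : Fac 𝒞 N)
    (hc : ∀ K, 𝒞 K → Fac 𝒟 (Kᘁ)) : Fac 𝒟 (Nᘁ) := by
  obtain ⟨ι, _, K, a, b, hK, hs⟩ := h
  refine fac_fac ⟨ι, inferInstance, fun j => (K j)ᘁ, fun j => (b j)ᘁ, fun j => (a j)ᘁ,
    fun j => hc _ (hK j), ?_⟩
  have h1 : ∀ (s : Finset ι) (f : ι → (N ⟶ N)), (∑ j ∈ s, f j)ᘁ = ∑ j ∈ s, (f j)ᘁ := by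
    classical
    intro s f
    have hz : ((0 : N ⟶ N)ᘁ) = 0 := by
      simp [rightAdjointMate]
    have ha : ∀ x y : N ⟶ N, ((x + y)ᘁ) = (xᘁ) + (yᘁ) := by
      intro x y
      simp [rightAdjointMate, MonoidalPreadditive.whiskerLeft_add,
        MonoidalPreadditive.add_whiskerRight]
    induction s using Finset.induction_on with
    | empty => simpa using hz
    | insert i s hi ih => rw [Finset.sum_insert hi, Finset.sum_insert hi, ha, ih]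
  rw [← rightAdjointMate_id, ← hs, h1]
  exact Finset.sum_congr rfl fun j _ => (comp_rightAdjointMate).symm

end tensor

end Pool.Agent.Q226.PS
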