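import Pool.Agent.Q226.SC.KimuraMain
import Pool.Agent.Q226.PS.Closure

set_option autoImplicit false

/-!
# Voevodsky's conjecture for products of curves, surfaces and abelian varieties
-/

open CategoryTheory CategoryTheory.Limits MonoidalCategory

universe v u

namespace Pool.Agent.Q226.PS

open Pool.Agent.Q226.SC (Geo Motives IsSummand PowerFibres KimuraFacts small_sum small_neg
  summand_of_eq)

variable {G : Geo} {𝓜 : Type u} [Category.{v} 𝓜] [MonoidalCategory 𝓜] [Preadditive 𝓜]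
  [Linear ℚ 𝓜] {D : Data G 𝓜}

section kummer

omit [Linear ℚ 𝓜] in
/-- The surface `Y / (± 1)` has `H¹ = 0`. -/
theorem Kummer.Good.reg {A : G.Var} {K : Kummer D A} (h : K.Good) : G.Reg K.S := by
  intro c
  obtain ⟨w, hw⟩ := h.hyper (G.res K.q c)
  have h1 : G.res K.negY (G.res K.q c) = -G.res K.q c := by
    rw [← hw, h.equiv, h.neg]
    exact map_neg (G.pull K.j) w
  rw [h.quot] at h1
  have h2 : (2 : ℚ) • G.res K.q c = 0 := by
    rw [two_smul]
    nth_rewrite 1 [h1]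
    exact neg_add_cancel _
  refine h.inj c ?_
  rcases smul_eq_zero.1 h2 with h3 | h3
  · norm_num at h3
  · exact h3

/-- The motive `h²(A)` is a direct summand of the motive of the surface `Y / (± 1)`. -/
theorem Kummer.Good.summand {A : G.Var} {K : Kummer D A} (h : K.Good) :
    IsSummand (D.comp A 2) (D.h K.S) := by
  refine ⟨K.inc ≫ K.res ≫ K.push, (2 : ℚ)⁻¹ • (K.pull ≫ K.lef), ?_⟩
  have h1 : K.inc ≫ K.res ≫ K.sY = K.inc ≫ K.res := by
    rw [← h.equivM, ← Category.assoc, h.two]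
  have h2 : (K.inc ≫ K.res ≫ K.push) ≫ (K.pull ≫ K.lef) = (2 : ℚ) • 𝟙 _ := by
    calc (K.inc ≫ K.res ≫ K.push) ≫ (K.pull ≫ K.lef)
        = K.inc ≫ K.res ≫ (K.push ≫ K.pull) ≫ K.lef := by simp only [Category.assoc]
      _ = K.inc ≫ K.res ≫ K.lef + (K.inc ≫ K.res ≫ K.sY) ≫ K.lef := by
          rw [h.quotM]
          simp only [Preadditive.add_comp, Preadditive.comp_add, Category.id_comp,
            Category.assoc]
      _ = (2 : ℚ) • 𝟙 _ := by
          rw [h1, Category.assoc, h.lefschetz, two_smul]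
  rw [Linear.comp_smul, h2, smul_smul, inv_mul_cancel₀ two_ne_zero, one_smul]

end kummer

section surfaces

variable [HasBinaryBiproducts 𝓜]

/-- The motives of surfaces with `H¹ = 0` are generated by simply connected surfaces. -/
theorem gen_reg (F : D.Facts) {X : G.Var} (hX : G.dim X = 2) (hr : G.Reg X) : D.Gen (D.h X) := by
  obtain ⟨S, t, u, c, n, k, a, b, hS, hs, hc, htu⟩ := F.surf.squares X hX hr
  refine fac_fac ⟨Option (Fin n), inferInstance, fun o => match o with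
      | none => D.h S
      | some j => D.L (k j), fun o => match o with
      | none => c⁻¹ • t
      | some j => -(c⁻¹ • a j), fun o => match o with
      | none => u
      | some j => b j, fun o => ?_, ?_⟩
  · cases o
    · exact gen_sc F.tensor hS hs
    · exact gen_L F.tensor _
  · rw [Fintype.sum_option]
    have h1 : ∑ j : Fin n, (-(c⁻¹ • a j)) ≫ b j = -(c⁻¹ • ∑ j, a j ≫ b j) := by
      rw [Finset.smul_sum, ← Finset.sum_neg_distrib]
      exact Finset.sum_congr rfl fun j _ => by rw [Preadditive.neg_comp, Linear.smul_comp]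
    show (c⁻¹ • t) ≫ u + ∑ j : Fin n, (-(c⁻¹ • a j)) ≫ b j = _
    rw [h1, Linear.smul_comp, htu, smul_add, smul_smul, inv_mul_cancel₀ hc, one_smul]
    abel

theorem kimura (F : D.Facts) : KimuraFacts D.mot where
  sum := fun _ _ _ _ => trivial
  summand := fun _ _ _ _ => trivial
  abel := fun _ _ => trivial
  abelSum := fun K K' h h' => Data.AbSum.sum K K' h h'
  abelZero := by
    obtain ⟨A, hA, -⟩ := F.abel.large
    exact ⟨_, Data.AbSum.twist A 0 hA⟩

omit [MonoidalCategory 𝓜] in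
/-- The motive of a surface is a direct summand of the motive of a surface with `H¹ = 0` and of
twists of motives of abelian varieties (as in `SC.KimuraMain`). -/
theorem surf_reg' {T : Motives G 𝓜} (hk : KimuraFacts T) (hp : PowerFibres T) {X : G.Var}
    (hX : G.dim X = 2) : ∃ (S : G.Var) (K : 𝓜),
    G.dim S = 2 ∧ G.Reg S ∧ T.Abel K ∧ IsSummand (T.h X) (T.h S ⊞ K) := by
  classical
  obtain ⟨Q, hn, MR, t, u, hG, hS, hM⟩ := hp X hX
  obtain ⟨t', u', htu⟩ := hM.quot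
  obtain ⟨N, hN, hdeg⟩ := hM.deg
  have hcross : T.Small (∑ i, ∑ j ∈ Finset.univ.erase i, t i ≫ u j) :=
    small_sum hk _ _ fun i _ => small_sum hk _ _ fun j hj =>
      hM.cross i j (Finset.ne_of_mem_erase hj).symm
  have hsplit : ∑ i, ∑ j, t i ≫ u j = ((Q.n : ℚ) * N) • 𝟙 (T.h X) +
      ∑ i, ∑ j ∈ Finset.univ.erase i, t i ≫ u j := by
    have h1 : ∀ i, ∑ j, t i ≫ u j = (N : ℚ) • 𝟙 (T.h X) +
        ∑ j ∈ Finset.univ.erase i, t i ≫ u j := fun i => by
      rw [← Finset.add_sum_erase _ _ (Finset.mem_univ i), hdeg]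
    rw [Finset.sum_congr rfl (fun i _ => h1 i), Finset.sum_add_distrib, Finset.sum_const,
      Finset.card_univ, ZMod.card, ← Nat.cast_smul_eq_nsmul ℚ, smul_smul]
  obtain ⟨K, a, b, hK, hab⟩ := small_neg hcross
  refine ⟨Q.S, K, hS, hG.reg, hK, summand_of_eq t' u' a b ((Q.n : ℚ) * N) ?_ ?_⟩
  · exact mul_ne_zero (Nat.cast_ne_zero.2 hn.out) (Nat.cast_ne_zero.2 hN)
  · rw [hab, htu, hsplit]
    abel

theorem surf_reg (F : D.Facts) {X : G.Var} (hX : G.dim X = 2) : ∃ (S : G.Var) (K : 𝓜),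
    G.dim S = 2 ∧ G.Reg S ∧ D.AbSum K ∧ IsSummand (D.h X) (D.h S ⊞ K) :=
  surf_reg' (T := D.mot) (kimura F) F.surf.powers hX

end surfaces

section abelian

variable [HasBinaryBiproducts 𝓜] [MonoidalPreadditive 𝓜] [BraidedCategory 𝓜]

omit [MonoidalPreadditive 𝓜] [BraidedCategory 𝓜] in
/-- `h²(A)` is generated by simply connected surfaces. -/
theorem gen_two (F : D.Facts) {A : G.Var} (hA : D.AV A) : D.Gen (D.comp A 2) := by
  obtain ⟨B, hB, hd⟩ := F.abel.large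
  obtain ⟨C, hC, hdim, hmul⟩ := F.abel.mul A B hA hB
  obtain ⟨e⟩ := F.abel.zero B hB
  have h1 : IsSummand (D.comp A 2) (D.comp A 2 ⊗ D.comp B 0) :=
    summand_iso ((ρ_ _).symm ≪≫ whiskerLeftIso _ e.symm)
  obtain ⟨K, hK⟩ := F.abel.kummer C hC (by omega)
  exact fac_summand h1 (fac_summand (hmul 2 0) (fac_summand hK.summand
    (gen_reg F hK.dim hK.reg)))

theorem gen_even (F : D.Facts) {A : G.Var} (hA : D.AV A) {j : ℕ} (hj : Even j) :
    D.Gen (D.comp A j) := by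
  obtain ⟨k, rfl⟩ := hj
  obtain ⟨C, hC, -, hmul⟩ := F.abel.mul A A hA hA
  have h1 : D.Gen (D.comp A 1 ⊗ D.comp A 1) := fac_summand (hmul 1 1) (gen_two F hC)
  have h2 := F.abel.pow A hA k
  rw [two_mul] at h2
  exact fac_summand h2 (gen_tp F.tensor h1 k)

/-- Voevodsky's conjecture for `P ⊗ h^j(A)`, `P` generated by simply connected surfaces. -/
theorem V_comp [RightRigidCategory 𝓜] (F : D.Facts) (h : ScV D) {P : 𝓜} (hP : D.Gen P)
    {A : G.Var} (hA : D.AV A) (j : ℕ) : D.V (P ⊗ D.comp A j) := by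
  rcases Nat.even_or_odd j with hj | hj
  · exact V_gen F.tensor h (gen_tensor F.tensor hP (gen_even F hA hj))
  · obtain ⟨b, hb⟩ := F.abel.odd P A j hP hA hj
    obtain ⟨C, hC, -, hmul⟩ := F.abel.mul A A hA hA
    have h1 : D.Gen (D.comp A j ⊗ D.comp A j) :=
      fac_summand (hmul j j) (gen_even F hC (hj.add_odd hj))
    have h2 : D.Gen ((P ⊗ D.comp A j) ⊗ (P ⊗ D.comp A j)) :=
      fac_summand (summand_iso (shuf _ _ _ _)) (gen_tensor F.tensor
        (gen_tensor F.tensor hP hP) h1)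
    intro i f _
    exact odd_cycles F.tensor h h2 b hb i f

/-- The motives `P ⊗ h^j(A)`, `P` generated by simply connected surfaces, `A` abelian. -/
def W (D : Data G 𝓜) (N : 𝓜) : Prop :=
  ∃ (P : 𝓜) (A : G.Var) (j : ℕ), D.Gen P ∧ D.AV A ∧ N = P ⊗ D.comp A j

theorem W_tensor (F : D.Facts) {N N' : 𝓜} (h : Fac (W D) N) (h' : Fac (W D) N') :
    Fac (W D) (N ⊗ N') := by
  refine fac_tensor h h' ?_
  rintro _ _ ⟨P, A, j, hP, hA, rfl⟩ ⟨P', A', j', hP', hA', rfl⟩
  obtain ⟨C, hC, -, hmul⟩ := F.abel.mul A A' hA hA'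
  refine fac_summand (summand_iso (shuf _ _ _ _)) (fac_summand (summand_tensor
    (summand_refl (P ⊗ P')) (hmul j j')) (fac_self ?_))
  exact ⟨P ⊗ P', C, j + j', gen_tensor F.tensor hP hP', hC, rfl⟩

omit [Linear ℚ 𝓜] [HasBinaryBiproducts 𝓜] [MonoidalPreadditive 𝓜] [BraidedCategory 𝓜] in
theorem W_gen' {N : 𝓜} (h : D.Gen N) {A : G.Var} (hA : D.AV A)
    (e : D.comp A 0 ≅ 𝟙_ 𝓜) : Fac (W D) N :=
  fac_of (summand_iso ((ρ_ _).symm ≪≫ whiskerLeftIso _ e.symm)) ⟨N, A, 0, h, hA, rfl⟩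

omit [MonoidalPreadditive 𝓜] [BraidedCategory 𝓜] in
theorem W_gen (F : D.Facts) {N : 𝓜} (h : D.Gen N) : Fac (W D) N := by
  obtain ⟨A, hA, -⟩ := F.abel.large
  obtain ⟨e⟩ := F.abel.zero A hA
  exact W_gen' h hA e

omit [MonoidalPreadditive 𝓜] [BraidedCategory 𝓜] in
theorem W_av (F : D.Facts) {A : G.Var} (hA : D.AV A) : Fac (W D) (D.h A) := by
  refine fac_trans (F.abel.dm A hA) ?_
  rintro _ ⟨j, rfl⟩
  exact fac_of (summand_iso (λ_ _).symm) ⟨𝟙_ 𝓜, A, j, gen_unit F.tensor, hA, rfl⟩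

theorem W_sum (F : D.Facts) {K : 𝓜} (h : D.AbSum K) : Fac (W D) K := by
  induction h with
  | twist A i hA => exact W_tensor F (W_av F hA) (W_gen F (gen_L F.tensor i))
  | sum N K _ _ ih ih' => exact fac_sum ih ih'

theorem W_surf (F : D.Facts) {X : G.Var} (hX : G.dim X = 2) : Fac (W D) (D.h X) := by
  obtain ⟨S, K, hS, hr, hK, h⟩ := surf_reg F hX
  exact fac_summand h (fac_sum (W_gen F (gen_reg F hS hr)) (W_sum F hK))

theorem W_any (F : D.Facts) {X : G.Var} (hX : G.dim X ≤ 2 ∨ D.AV X) : Fac (W D) (D.h X) := by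
  rcases hX with hX | hX
  · rcases Nat.lt_or_ge (G.dim X) 2 with h | h
    · obtain ⟨Y, hY, hs⟩ := F.surf.low X (by omega)
      exact fac_summand hs (W_surf F hY)
    · exact W_surf F (by omega)
  · exact W_av F hX

theorem W_prod (F : D.Facts) (l : List G.Var) (hl : ∀ X ∈ l, G.dim X ≤ 2 ∨ D.AV X) :
    Fac (W D) (D.prod l) := by
  induction l with
  | nil => exact W_gen F (gen_unit F.tensor)
  | cons X l ih =>
    exact W_tensor F (W_any F (hl X List.mem_cons_self))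
      (ih fun Y hY => hl Y (List.mem_cons_of_mem _ hY))

theorem all_of_sc [RightRigidCategory 𝓜] (F : D.Facts) (h : ScV D) : D.AllProducts := by
  intro l hl
  refine V_of_fac F.tensor (W_prod F l hl) ?_
  rintro _ ⟨P, A, j, hP, hA, rfl⟩
  exact V_comp F h hP hA j

end abelian

section middle

variable [HasBinaryBiproducts 𝓜] [MonoidalPreadditive 𝓜] [BraidedCategory 𝓜]

omit [MonoidalPreadditive 𝓜] [BraidedCategory 𝓜] in
/-- One simply connected surface dominates all surfaces of a list. -/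
theorem common_list (F : D.Facts) (S₀ : G.Var) (h0 : G.dim S₀ = 2) (h0' : G.SC S₀)
    (l : List G.Var) (hl : ∀ X ∈ l, G.dim X = 2 ∧ G.SC X) :
    ∃ S : G.Var, G.dim S = 2 ∧ G.SC S ∧ ∀ X ∈ l, IsSummand (D.h X) (D.h S) := by
  induction l with
  | nil => exact ⟨S₀, h0, h0', by simp⟩
  | cons X l ih =>
    obtain ⟨S, hS, hs, h⟩ := ih fun Y hY => hl Y (List.mem_cons_of_mem _ hY)
    have hX := hl X List.mem_cons_self
    obtain ⟨S'', h1, h2, h3, h4⟩ := F.surf.common X S hX.1 hX.2 hS hs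
    refine ⟨S'', h1, h2, fun Y hY => ?_⟩
    rcases List.mem_cons.1 hY with rfl | hY
    · exact h3
    · exact (h Y hY).trans h4

omit [Preadditive 𝓜] [Linear ℚ 𝓜] [HasBinaryBiproducts 𝓜] [MonoidalPreadditive 𝓜]
  [BraidedCategory 𝓜] in
theorem prod_summand (l : List G.Var) (S : G.Var)
    (h : ∀ X ∈ l, IsSummand (D.h X) (D.h S)) : IsSummand (D.prod l) (D.power S l.length) := by
  induction l with
  | nil => exact ⟨𝟙 (𝟙_ 𝓜), 𝟙 (𝟙_ 𝓜), Category.comp_id _⟩
  | cons X l ih =>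
    exact summand_tensor (h X List.mem_cons_self)
      (ih fun Y hY => h Y (List.mem_cons_of_mem _ hY))

omit [Linear ℚ 𝓜] [HasBinaryBiproducts 𝓜] in
/-- `f ⊗ L^k` determines `f`. -/
theorem smash_untwist (F : D.TensorFacts) {M N K : 𝓜} (k : ℤ) (e : K ≅ D.L k) (f : M ⟶ N)
    (h : SmashNil (f ⊗ₘ 𝟙 K)) : SmashNil f := by
  obtain ⟨e2⟩ := unit_iso F (add_neg_cancel k)
  have h1 : Sim (𝟙 K ⊗ₘ 𝟙 (D.L (-k))) (𝟙 (𝟙_ 𝓜)) := by
    rw [MonoidalCategory.id_tensorHom_id]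
    exact sim_id (whiskerRightIso e _ ≪≫ e2)
  have h2 : Sim ((f ⊗ₘ 𝟙 K) ⊗ₘ 𝟙 (D.L (-k))) f :=
    (sim_assoc _ _ _).trans (((Sim.refl f).tensor h1).trans (sim_unit f))
  exact smashNil_sim h2.symm (smashNil_tensor _ h)

omit [Preadditive 𝓜] [Linear ℚ 𝓜] [HasBinaryBiproducts 𝓜] [MonoidalPreadditive 𝓜]
  [BraidedCategory 𝓜] in
theorem power_tp (S : G.Var) (r : ℕ) : Nonempty (tp (D.h S) r ≅ D.power S r) := by
  induction r with
  | zero => exact ⟨Iso.refl _⟩
  | succ r ih =>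
    obtain ⟨e⟩ := ih
    exact ⟨whiskerLeftIso (D.h S) e⟩

omit [Preadditive 𝓜] [Linear ℚ 𝓜] [HasBinaryBiproducts 𝓜] [MonoidalPreadditive 𝓜]
  [BraidedCategory 𝓜] in
theorem power_add (S : G.Var) (r s : ℕ) :
    Nonempty (D.power S r ⊗ D.power S s ≅ D.power S (r + s)) := by
  obtain ⟨e⟩ := prod_append D (List.replicate r S) (List.replicate s S)
  rw [← List.replicate_add] at e
  exact ⟨e.symm⟩

omit [Linear ℚ 𝓜] [HasBinaryBiproducts 𝓜] [MonoidalPreadditive 𝓜] [BraidedCategory 𝓜]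
  [Preadditive 𝓜] in
/-- `L^k` is a direct summand of `h(S^s)` for `k ≤ 2 s`. -/
theorem L_power (F : D.TensorFacts) {S : G.Var}
    (hS : ∀ c : ℕ, c ≤ 2 → IsSummand (D.L c) (D.h S)) (s k : ℕ) (hk : k ≤ 2 * s) :
    IsSummand (D.L k) (D.power S s) := by
  induction s generalizing k with
  | zero =>
    obtain ⟨e0⟩ := F.L_zero
    obtain rfl : k = 0 := by omega
    exact summand_iso e0
  | succ s ih =>
    obtain ⟨c, k', hc, hk', rfl⟩ : ∃ c k' : ℕ, c ≤ 2 ∧ k' ≤ 2 * s ∧ k = c + k' :=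
      ⟨k - min k (2 * s), min k (2 * s), by omega, by omega, by omega⟩
    obtain ⟨e⟩ := F.L_add c k'
    rw [← Nat.cast_add] at e
    exact (summand_iso e.symm).trans (summand_tensor (hS c hc) (ih k' hk'))

omit [Linear ℚ 𝓜] [HasBinaryBiproducts 𝓜] in
/-- Passage to other codimensions. -/
theorem to_large (F : D.TensorFacts) {S : G.Var}
    (hS : ∀ c : ℕ, c ≤ 2 → IsSummand (D.L c) (D.h S)) {r e : ℕ} (h : D.OneCodim S r e)
    (r₀ : ℕ) (i : ℤ) (h1 : i ≤ e) (h2 : 2 * r₀ - i ≤ 2 * r - e) (f : D.L i ⟶ D.power S r₀)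
    (hf : D.null f) : SmashNil f := by
  obtain ⟨s, rfl⟩ : ∃ s, r = r₀ + s := Nat.exists_eq_add_of_le (by omega)
  obtain ⟨k, hk⟩ : ∃ k : ℕ, i + k = e := ⟨(e - i).toNat, by omega⟩
  obtain ⟨a, b, hab⟩ := L_power F hS s k (by omega)
  obtain ⟨e2⟩ := F.L_add i k
  obtain ⟨e4⟩ := power_add (D := D) S r₀ s
  let x : D.L (e : ℤ) ≅ D.L i ⊗ D.L k := eqToIso (by rw [hk]) ≪≫ e2.symm
  have h3 : SmashNil (x.hom ≫ (f ⊗ₘ a) ≫ e4.hom) :=
    h _ (F.comp_null _ _ (F.null_comp _ _ (F.null_tensor _ _ hf)))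
  have h4 : SmashNil (f ⊗ₘ a) := smashNil_sim (sim_comp x _ e4).symm h3
  have h5 : (f ⊗ₘ a) ≫ (𝟙 _ ⊗ₘ b) = f ⊗ₘ 𝟙 (D.L k) := by
    rw [MonoidalCategory.tensorHom_comp_tensorHom, Category.comp_id, hab]
  refine smash_untwist F k (Iso.refl _) f ?_
  rw [← h5]
  exact smashNil_comp _ h4

theorem sc_of_large (F : D.Facts) {𝒮 : G.Var → Prop} (h𝒮 : D.Cofinal 𝒮) (h : D.Large 𝒮) :
    ScV D := by
  -- a simply connected surface
  obtain ⟨S₀, h0, h0'⟩ : ∃ S : G.Var, G.dim S = 2 ∧ G.SC S := by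
    obtain ⟨A, hA, hd⟩ := F.abel.large
    obtain ⟨K, hK⟩ := F.abel.kummer A hA hd
    obtain ⟨S, -, -, -, -, -, -, -, hS, hs, -⟩ := F.surf.squares K.S hK.dim hK.reg
    exact ⟨S, hS, hs⟩
  intro l hl
  obtain ⟨S₁, h1, h1', hsum₁⟩ := common_list F S₀ h0 h0' l hl
  obtain ⟨S, hS, hdom⟩ := h𝒮.dom S₁ h1 h1'
  have hS2 := (h𝒮.sc S hS).1
  obtain ⟨a, b, hab⟩ := prod_summand l S fun X hX => (hsum₁ X hX).trans hdom
  intro i f hf
  obtain ⟨r, e, hR, hR', hV⟩ := h S hS (max i (2 * l.length - i)).toNat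
  have h3 : SmashNil (f ≫ a) :=
    to_large F.tensor (F.surf.lef S hS2) hV l.length i (by omega) (by omega) _
      (F.tensor.null_comp f a hf)
  have h4 : f = (f ≫ a) ≫ b := by rw [Category.assoc, hab, Category.comp_id]
  rw [h4]
  exact smashNil_comp _ h3

/-- **Theorem.** Voevodsky's conjecture for all cycles on all products of curves, surfaces and
abelian varieties is equivalent to Voevodsky's conjecture for one codimension `e` on one power `S^r`,
with `e` and `2 r - e` arbitrarily large, for each `S` in a cofinal class of simply connected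
surfaces. -/
theorem main [RightRigidCategory 𝓜] (F : D.Facts) {𝒮 : G.Var → Prop} (h𝒮 : D.Cofinal 𝒮) :
    D.AllProducts ↔ D.Large 𝒮 := by
  constructor
  · intro h S hS R
    refine ⟨R, R, le_rfl, by omega, fun f hf => h (List.replicate R S) ?_ R f hf⟩
    intro X hX
    rw [List.eq_of_mem_replicate hX]
    exact Or.inl (h𝒮.sc S hS).1.le
  · exact fun h => all_of_sc F (sc_of_large F h𝒮 h)

end middle

end Pool.Agent.Q226.PS
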